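import Mathlib

/-! # [H14 AA CLS] Integer points on a line at which a polynomial is small (THEOREM AA, step 3c)

`F` of total degree at most `n`, whose part of degree `n` has no integer zero but `(0,0)`; a finite set of integer points, any three
of them collinear, at which `|F| ≤ H ≤ R^n`, has at most `n (2 R + 1)` points: the restriction to the line has degree `n` and integer
leading coefficient, and at each of the points it is within `R` of one of its `n` roots. -/

namespace Pool.Agent.H14.AA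

open Polynomial

/-- integers in a disc -/
theorem int_disc (α : ℂ) (R : ℝ) (hR : 0 ≤ R) (S : Finset ℤ) (hS : ∀ k ∈ S, ‖(k : ℂ) - α‖ ≤ R) :
    (S.card : ℝ) ≤ 2 * R + 1 := by
  classical
  have hsub : S ⊆ Finset.Icc ⌈α.re - R⌉ ⌊α.re + R⌋ := by
    intro k hk
    have h1 := hS k hk
    have h2 : |((k : ℂ) - α).re| ≤ R := (Complex.abs_re_le_norm _).trans h1
    rw [Complex.sub_re, Complex.intCast_re, abs_le] at h2
    rw [Finset.mem_Icc]
    constructor
    · exact Int.ceil_le.mpr (by linarith [h2.1])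
    · exact Int.le_floor.mpr (by linarith [h2.2])
  have h3 := Finset.card_le_card hsub
  rw [Int.card_Icc] at h3
  have h4 : ((⌊α.re + R⌋ + 1 - ⌈α.re - R⌉).toNat : ℝ) ≤ 2 * R + 1 := by
    have h5 : (((⌊α.re + R⌋ + 1 - ⌈α.re - R⌉).toNat : ℤ) : ℝ) ≤ 2 * R + 1 := by
      rw [Int.toNat_eq_max]
      push_cast
      apply max_le
      · have := Int.floor_le (α.re + R)
        have := Int.le_ceil (α.re - R)
        linarith
      · linarith
    exact_mod_cast h5
  calc (S.card : ℝ) ≤ ((⌊α.re + R⌋ + 1 - ⌈α.re - R⌉).toNat : ℝ) := by exact_mod_cast h3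
    _ ≤ _ := h4

theorem prod_gt (R : ℝ) (hR : 0 ≤ R) (z : ℂ) (s : Multiset ℂ) (hs : ∀ a ∈ s, R < ‖z - a‖) :
    s = 0 ∨ R ^ s.card < ‖(s.map fun a => z - a).prod‖ := by
  induction s using Multiset.induction_on with
  | empty => exact Or.inl rfl
  | cons a s ih =>
    right
    rw [Multiset.map_cons, Multiset.prod_cons, norm_mul, Multiset.card_cons]
    have ha := hs a (Multiset.mem_cons_self a s)
    rcases ih (fun b hb => hs b (Multiset.mem_cons_of_mem hb)) with h | h
    · rw [h]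
      simpa using ha
    · rw [pow_succ']
      exact mul_lt_mul'' ha h hR (pow_nonneg hR _)

/-- a complex polynomial of degree `n ≥ 1` with leading coefficient at least `1` is at most `H` at few integers -/
theorem small_values {n : ℕ} (hn : 1 ≤ n) (p : ℂ[X]) (hd : p.natDegree = n) (hl : 1 ≤ ‖p.leadingCoeff‖)
    (H R : ℝ) (hR : 0 ≤ R) (hHR : H ≤ R ^ n) (S : Finset ℤ) (hS : ∀ k ∈ S, ‖p.eval (k : ℂ)‖ ≤ H) :
    (S.card : ℝ) ≤ n * (2 * R + 1) := by
  classical
  have hp0 : p ≠ 0 := by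
    rintro rfl
    simp at hd
    omega
  have hsplit : p.roots.card = p.natDegree := IsAlgClosed.card_roots_eq_natDegree
  have hr0 : p.roots ≠ 0 := by
    intro h
    rw [h] at hsplit
    simp at hsplit
    omega
  have hex : ∀ k ∈ S, ∃ a ∈ p.roots.toFinset, ‖(k : ℂ) - a‖ ≤ R := by
    intro k hk
    by_contra hcon
    push Not at hcon
    have h1 : p = C p.leadingCoeff * (p.roots.map fun a => X - C a).prod :=
      (C_leadingCoeff_mul_prod_multiset_X_sub_C hsplit).symm
    have h2 := hS k hk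
    rw [h1, eval_mul, eval_C, norm_mul, eval_multiset_prod, Multiset.map_map] at h2
    have h3 : (Multiset.map (eval (k : ℂ) ∘ fun a => X - C a) p.roots) = p.roots.map fun a => (k : ℂ) - a := by
      refine Multiset.map_congr rfl fun a _ => ?_
      simp
    rw [h3] at h2
    rcases prod_gt R hR (k : ℂ) p.roots (fun a ha => hcon a (Multiset.mem_toFinset.mpr ha)) with h | h
    · exact hr0 h
    · rw [hsplit, hd] at h
      have h4 : ‖(p.roots.map fun a => (k : ℂ) - a).prod‖ ≤
          ‖p.leadingCoeff‖ * ‖(p.roots.map fun a => (k : ℂ) - a).prod‖ :=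
        le_mul_of_one_le_left (norm_nonneg _) hl
      linarith
  have hsub : S ⊆ p.roots.toFinset.biUnion fun a => S.filter fun k => ‖(k : ℂ) - a‖ ≤ R := by
    intro k hk
    obtain ⟨a, ha, h⟩ := hex k hk
    exact Finset.mem_biUnion.mpr ⟨a, ha, Finset.mem_filter.mpr ⟨hk, h⟩⟩
  have hc1 : (S.card : ℝ) ≤ ∑ a ∈ p.roots.toFinset, ((S.filter fun k : ℤ => ‖(k : ℂ) - a‖ ≤ R).card : ℝ) := by
    have := (Finset.card_le_card hsub).trans Finset.card_biUnion_le
    exact_mod_cast this
  have hc2 : ∀ a ∈ p.roots.toFinset, ((S.filter fun k : ℤ => ‖(k : ℂ) - a‖ ≤ R).card : ℝ) ≤ 2 * R + 1 := by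
    intro a _
    exact int_disc a R hR _ fun k hk => (Finset.mem_filter.mp hk).2
  have hc3 := Finset.sum_le_card_nsmul _ _ _ hc2
  rw [nsmul_eq_mul] at hc3
  have hc4 : (p.roots.toFinset.card : ℝ) ≤ n := by
    have := Multiset.toFinset_card_le p.roots
    rw [hsplit, hd] at this
    exact_mod_cast this
  calc (S.card : ℝ) ≤ _ := hc1
    _ ≤ _ := hc3
    _ ≤ n * (2 * R + 1) := mul_le_mul_of_nonneg_right hc4 (by linarith)


private theorem lin_deg (a v : ℤ) : (C a + C v * X : ℤ[X]).natDegree ≤ 1 := by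
  refine (natDegree_add_le _ _).trans (max_le ?_ ?_)
  · rw [natDegree_C]
    exact Nat.zero_le _
  · simpa using natDegree_C_mul_X_pow_le v 1

private theorem lin_coeff (a v : ℤ) : (C a + C v * X : ℤ[X]).coeff 1 = v := by
  rw [coeff_add, coeff_C, coeff_C_mul, coeff_X]
  simp

private theorem pow_deg (a v : ℤ) (i : ℕ) : ((C a + C v * X : ℤ[X]) ^ i).natDegree ≤ i := by
  have := natDegree_pow_le_of_le i (lin_deg a v)
  simpa using this

theorem mono_deg (a b v w : ℤ) (i j : ℕ) :
    ((C a + C v * X : ℤ[X]) ^ i * (C b + C w * X) ^ j).natDegree ≤ i + j :=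
  natDegree_mul_le.trans (Nat.add_le_add (pow_deg a v i) (pow_deg b w j))

theorem mono_coeff (a b v w : ℤ) (i j : ℕ) :
    ((C a + C v * X : ℤ[X]) ^ i * (C b + C w * X) ^ j).coeff (i + j) = v ^ i * w ^ j := by
  rw [coeff_mul_add_eq_of_natDegree_le (pow_deg a v i) (pow_deg b w j)]
  have h3 := coeff_pow_of_natDegree_le (m := i) (lin_deg a v)
  have h4 := coeff_pow_of_natDegree_le (m := j) (lin_deg b w)
  rw [mul_one, lin_coeff] at h3 h4
  rw [h3, h4]

/-- the restriction of `F` to the line `(a,b) + k (v,w)` -/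
noncomputable def rs (a b v w : ℤ) (F : MvPolynomial (Fin 2) ℤ) : ℤ[X] :=
  MvPolynomial.aeval ![C a + C v * X, C b + C w * X] F

theorem rs_monomial (a b v w : ℤ) (m : Fin 2 →₀ ℕ) (c : ℤ) :
    rs a b v w (MvPolynomial.monomial m c) =
      C c * ((C a + C v * X : ℤ[X]) ^ m 0 * (C b + C w * X) ^ m 1) := by
  unfold rs
  rw [MvPolynomial.aeval_monomial, Finsupp.prod_fintype _ _ (fun i => pow_zero _), Fin.prod_univ_two]
  rfl

theorem rs_eval (a b v w : ℤ) (F : MvPolynomial (Fin 2) ℤ) (k : ℤ) :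
    (rs a b v w F).eval k = MvPolynomial.eval ![a + v * k, b + w * k] F := by
  induction F using MvPolynomial.induction_on with
  | C c => simp [rs]
  | add p q hp hq =>
    have : rs a b v w (p + q) = rs a b v w p + rs a b v w q := by
      unfold rs
      rw [map_add]
    rw [this, eval_add, hp, hq, map_add]
  | mul_X p i hp =>
    have : rs a b v w (p * MvPolynomial.X i) = rs a b v w p * ![C a + C v * X, C b + C w * X] i := by
      unfold rs
      rw [map_mul, MvPolynomial.aeval_X]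
    rw [this, eval_mul, hp, map_mul, MvPolynomial.eval_X]
    congr 1
    fin_cases i
    · simp
    · simp

theorem rs_sum (a b v w : ℤ) (F : MvPolynomial (Fin 2) ℤ) :
    rs a b v w F = ∑ m ∈ F.support, C (F.coeff m) * ((C a + C v * X : ℤ[X]) ^ m 0 * (C b + C w * X) ^ m 1) := by
  conv_lhs => rw [F.as_sum]
  unfold rs
  rw [map_sum]
  exact Finset.sum_congr rfl fun m _ => rs_monomial a b v w m _

private theorem le_of_supp {F : MvPolynomial (Fin 2) ℤ} {n : ℕ} (hF : F.totalDegree ≤ n) {m : Fin 2 →₀ ℕ}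
    (hm : m ∈ F.support) : m 0 + m 1 ≤ n := by
  have h := (MvPolynomial.le_totalDegree hm).trans hF
  rwa [Finsupp.sum_fintype _ _ (fun i => rfl), Fin.sum_univ_two] at h

theorem rs_deg {F : MvPolynomial (Fin 2) ℤ} {n : ℕ} (hF : F.totalDegree ≤ n) (a b v w : ℤ) :
    (rs a b v w F).natDegree ≤ n := by
  rw [rs_sum]
  refine natDegree_sum_le_of_forall_le _ _ fun m hm => ?_
  exact (natDegree_C_mul_le _ _).trans ((mono_deg a b v w _ _).trans (le_of_supp hF hm))

theorem rs_coeff {F : MvPolynomial (Fin 2) ℤ} {n : ℕ} (hF : F.totalDegree ≤ n) (a b v w : ℤ) :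
    (rs a b v w F).coeff n = MvPolynomial.eval ![v, w] (MvPolynomial.homogeneousComponent n F) := by
  classical
  rw [rs_sum, finsetSum_coeff, MvPolynomial.homogeneousComponent_apply, map_sum, Finset.sum_filter]
  refine Finset.sum_congr rfl fun m hm => ?_
  have h1 := le_of_supp hF hm
  have h2 : m.degree = m 0 + m 1 := by
    rw [Finsupp.degree_eq_sum, Fin.sum_univ_two]
  rw [coeff_C_mul, h2]
  split_ifs with h
  · rw [← h, mono_coeff, MvPolynomial.eval_monomial, Finsupp.prod_fintype _ _ (fun i => pow_zero _), Fin.prod_univ_two]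
    rfl
  · rw [coeff_eq_zero_of_natDegree_lt, mul_zero]
    exact lt_of_le_of_lt (mono_deg a b v w _ _) (by omega)


/-- points on a line at which a function is small that is a polynomial of degree `n` on every line -/
theorem line_count_gen {n : ℕ} (hn : 1 ≤ n) (F : ℤ → ℤ → ℤ)
    (hF : ∀ a b v w : ℤ, (v, w) ≠ (0, 0) → ∃ Q : ℤ[X], Q.natDegree = n ∧ ∀ k : ℤ, Q.eval k = F (a + v * k) (b + w * k))
    (H R : ℝ) (hR : 0 ≤ R) (hHR : H ≤ R ^ n) (S : Finset (ℤ × ℤ))
    (hcol : ∀ P ∈ S, ∀ Q ∈ S, ∀ T ∈ S, (Q.1 - P.1) * (T.2 - P.2) = (T.1 - P.1) * (Q.2 - P.2))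
    (hS : ∀ P ∈ S, |((F P.1 P.2 : ℤ) : ℝ)| ≤ H) :
    (S.card : ℝ) ≤ n * (2 * R + 1) := by
  classical
  have hn' : (1 : ℝ) ≤ n := by exact_mod_cast hn
  rcases Nat.lt_or_ge 1 S.card with hc | hc
  · obtain ⟨P, hP, Q, hQ, hPQ⟩ := Finset.one_lt_card.mp hc
    obtain ⟨g, v, w, hg, hco, hv, hw⟩ : ∃ g v w : ℤ, g ≠ 0 ∧ IsCoprime v w ∧ Q.1 - P.1 = g * v ∧ Q.2 - P.2 = g * w := by
      have hpos : 0 < (Q.1 - P.1).gcd (Q.2 - P.2) := by
        rcases Nat.eq_zero_or_pos ((Q.1 - P.1).gcd (Q.2 - P.2)) with h | h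
        · rw [Int.gcd_eq_zero_iff] at h
          exact absurd (Prod.ext (by linarith [h.1]) (by linarith [h.2])) hPQ
        · exact h
      obtain ⟨g, v, w, hg, hco, h1, h2⟩ := Int.exists_gcd_one' hpos
      exact ⟨g, v, w, by positivity, Int.isCoprime_iff_gcd_eq_one.mpr hco, by rw [h1, mul_comm], by rw [h2, mul_comm]⟩
    obtain ⟨u, t, hut⟩ := hco
    have hk : ∀ T ∈ S, T.1 - P.1 = v * (u * (T.1 - P.1) + t * (T.2 - P.2)) ∧
        T.2 - P.2 = w * (u * (T.1 - P.1) + t * (T.2 - P.2)) := by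
      intro T hT
      have h1 := hcol P hP Q hQ T hT
      rw [hv, hw] at h1
      have h2 : v * (T.2 - P.2) = w * (T.1 - P.1) := by
        apply mul_left_cancel₀ hg
        linear_combination h1
      constructor
      · linear_combination (-(T.1 - P.1)) * hut - t * h2
      · linear_combination (-(T.2 - P.2)) * hut + u * h2
    obtain ⟨κ, hκ⟩ : ∃ κ : ℤ × ℤ → ℤ, κ = fun T => u * (T.1 - P.1) + t * (T.2 - P.2) := ⟨_, rfl⟩
    have hinj : Set.InjOn κ S := by
      intro T hT T' hT' h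
      rw [hκ] at h
      obtain ⟨h1, h2⟩ := hk T hT
      obtain ⟨h3, h4⟩ := hk T' hT'
      simp only at h
      rw [h] at h1 h2
      exact Prod.ext (by linarith) (by linarith)
    have hvw : (v, w) ≠ (0, 0) := by
      intro h
      rw [Prod.mk.injEq] at h
      rw [h.1, h.2] at hut
      simp at hut
    obtain ⟨p, hpd, hpe⟩ := hF P.1 P.2 v w hvw
    have hinjc : Function.Injective (Int.castRingHom ℂ) := Int.cast_injective
    have hp0 : p ≠ 0 := by
      intro h
      rw [h, natDegree_zero] at hpd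
      omega
    have hdeg : (p.map (Int.castRingHom ℂ)).natDegree = n := by
      rw [natDegree_map_eq_of_injective hinjc, hpd]
    have hlead : 1 ≤ ‖(p.map (Int.castRingHom ℂ)).leadingCoeff‖ := by
      rw [leadingCoeff_map_of_injective hinjc, eq_intCast, Complex.norm_intCast]
      exact_mod_cast Int.one_le_abs (leadingCoeff_ne_zero.mpr hp0)
    have hmain := small_values hn _ hdeg hlead H R hR hHR (S.image κ) (by
      intro k hk'
      obtain ⟨T, hT, rfl⟩ := Finset.mem_image.mp hk'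
      have h1 : (p.map (Int.castRingHom ℂ)).eval ((κ T : ℤ) : ℂ) = ((F T.1 T.2 : ℤ) : ℂ) := by
        rw [← eq_intCast (Int.castRingHom ℂ) (κ T), eval_map_apply, hpe]
        rw [eq_intCast]
        obtain ⟨h1, h2⟩ := hk T hT
        have e1 : P.1 + v * κ T = T.1 := by
          rw [hκ]
          simp only
          linarith
        have e2 : P.2 + w * κ T = T.2 := by
          rw [hκ]
          simp only
          linarith
        rw [e1, e2]
      rw [h1, Complex.norm_intCast]
      exact hS T hT)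
    rw [Finset.card_image_of_injOn hinj] at hmain
    exact hmain
  · have h1 : (S.card : ℝ) ≤ 1 := by exact_mod_cast hc
    nlinarith

/-- points on a line at which `F` is small -/
theorem line_count {F : MvPolynomial (Fin 2) ℤ} {n : ℕ} (hn : 1 ≤ n) (hF : F.totalDegree ≤ n)
    (hf : ∀ v w : ℤ, (v, w) ≠ (0, 0) → MvPolynomial.eval ![v, w] (MvPolynomial.homogeneousComponent n F) ≠ 0)
    (H R : ℝ) (hR : 0 ≤ R) (hHR : H ≤ R ^ n) (S : Finset (ℤ × ℤ))
    (hcol : ∀ P ∈ S, ∀ Q ∈ S, ∀ T ∈ S, (Q.1 - P.1) * (T.2 - P.2) = (T.1 - P.1) * (Q.2 - P.2))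
    (hS : ∀ P ∈ S, |((MvPolynomial.eval ![P.1, P.2] F : ℤ) : ℝ)| ≤ H) :
    (S.card : ℝ) ≤ n * (2 * R + 1) := by
  refine line_count_gen hn (fun x y => MvPolynomial.eval ![x, y] F) ?_ H R hR hHR S hcol hS
  intro a b v w hvw
  refine ⟨rs a b v w F, ?_, fun k => rs_eval a b v w F k⟩
  refine le_antisymm (rs_deg hF _ _ _ _) (le_natDegree_of_ne_zero ?_)
  rw [rs_coeff hF]
  exact hf v w hvw

end Pool.Agent.H14.AA
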